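import Pool.Agent.helper52.ED.SpecP

set_option autoImplicit false

open Complex Metric Set Filter Topology MeasureTheory
open Pool.Agent.helper98.ILF Pool.Agent.helper16.Multibrot HY
open DH (co Tow yv jj FA REL)

noncomputable section

namespace ED

theorem PSA_fil (hVKB : HY.VKB_stmt) (n : ℕ) (c : ℂ) (hn : 2 ≤ n) (hc : c ∈ multibrot n) (p : ℂ) (hp : p ∈ filled n c) (i : ℕ) :
    (fz n c)^[i] p ∈ filled n c := by
  obtain ⟨-, -, -, -, h5, -⟩ := hVKB n c hn hc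
  induction i with
  | zero => simpa using hp
  | succ i ih => rw [Function.iterate_succ_apply']; exact h5 _ ih

theorem PSA (hPC2 : PC2_stmt) (hSPK : SPK_stmt) (hTCH : TCH_stmt) (hBTP : DH.BTP_stmt) (hVKB : HY.VKB_stmt) : PSA_stmt := by
  obtain ⟨C, e, hC, he, hP⟩ := hPC2
  refine ⟨C, e, hC, he, ?_⟩
  intro n c Φ b M k p t hFA T' T₁ g s σ hT1 hT2 hg hs hσ h8 hga hsv hσy
  obtain ⟨hTow, hmem, hfar, hnear⟩ := hFA
  have hn := hTow.hn
  have hc := hTow.hc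
  obtain ⟨-, h0f, -⟩ := hVKB n c hn hc
  have hpf : (fz n c)^[T'] p ∈ filled n c := PSA_fil hVKB n c hn hc p hmem T'
  have h1 := (hBTP n c Φ b hTow).1
  have h2 := fun (p : ℂ) (hp : p ∈ filled n c) => (hBTP n c Φ b hTow).2 0 0 p hp
  set q := t - T' with hq
  set u := t - T₁ with hu
  have huq : u ≤ q := by omega
  obtain ⟨hS1, hS2, hS3, hS4, hS5, hS6⟩ := hSPK
  have hkt : k + t - T' = k + q := by omega
  rw [hkt] at hga
  -- the points
  have e1 : yv Φ n c (k + q) ((fz n c)^[T'] p) 0 = yv Φ n c (k + q) p T' := rfl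
  have e2 : yv Φ n c (k + q - u) ((fz n c)^[T'] p) u = yv Φ n c (k + q - u) p (T' + u) := by
    unfold yv
    rw [← Function.iterate_add_apply, Nat.add_comm u T']
  have h00 : (0 : ℂ) ∈ UD := by simp [UD]
  have e3 : yv Φ n c (k + q) 0 0 = 0 := by
    have h3 := (h2 0 h0f).2.1 (k + q) 0
    have h4 := (hTow.rm (k + q)).val
    refine (hTow.rm (k + q)).inj h3.1 h00 ?_
    rw [h3.2, h4]
    rfl
  have hT3 := (hTCH n c Φ b hTow k q 0 h0f).2.2 ((fz n c)^[T'] p) hpf 0 u (by omega)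
  simp only [Nat.zero_add, Nat.sub_zero] at hT3
  rw [e1, e2, e3] at hT3
  have hT0 : ∀ x : ℂ, T 0 x = x := by intro x; simp [T]
  rw [hT0] at hT3
  have hT1' := (hTCH n c Φ b hTow k q 0 h0f).1 u huq
  have hkl : k ≤ k + q - u := by omega
  have hj := h1 k (k + q - u) hkl
  set X := yv Φ n c (k + q - u) p (T' + u) with hX
  set Z := yv Φ n c (k + q - u) 0 u with hZ
  have hXm : X ∈ UD := ((h2 p hmem).2.1 (k + q - u) (T' + u)).1
  have hZm : Z ∈ UD := ((h2 0 h0f).2.1 (k + q - u) u).1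
  have hjX : jj Φ k (k + q - u) X = yv Φ n c k p (T' + u) := ((h2 p hmem).2.2.1 k (k + q - u) (T' + u) hkl).1
  have hjZ : jj Φ k (k + q - u) Z = yv Φ n c k 0 u := ((h2 0 h0f).2.2.1 k (k + q - u) u hkl).1
  have hyX : yv Φ n c k p (T' + u) ∈ UD := ((h2 p hmem).2.1 k (T' + u)).1
  have hyZ : yv Φ n c k 0 u ∈ UD := ((h2 0 h0f).2.1 k u).1
  have hq1 : 1 - ‖T (yv Φ n c k 0 u) (yv Φ n c k p (T' + u))‖ ≤ 4 * σ / s := by
    refine (hS2 _ hyZ _ hyX).trans ?_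
    have : 0 < 1 - ‖yv Φ n c k 0 u‖ := by linarith
    rw [div_le_div_iff₀ this hs]
    have h0 : 0 ≤ 1 - ‖yv Φ n c k p (T' + u)‖ := by
      have : ‖yv Φ n c k p (T' + u)‖ < 1 := by simpa [UD] using hyX
      linarith
    nlinarith
  have hq2 : 4 * σ / s ≤ 1 / 2 := by rw [div_le_div_iff₀ hs (by norm_num)]; linarith
  have hPP := hP (jj Φ k (k + q - u)) hj.1 Z hZm X hXm (by rw [hjX, hjZ]; linarith)
  rw [hjX, hjZ, ← hT1'.2.2] at hPP
  have hW0 : 0 ≤ hd (chg Φ n c k q 0 u) 0 := by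
    unfold hd
    have h5 : chg Φ n c k q 0 u 0 ∈ UD := hT1'.1.map h00
    have h6 : ‖chg Φ n c k q 0 u 0‖ < 1 := by simpa [UD] using h5
    have : 0 < 1 - ‖chg Φ n c k q 0 u 0‖ ^ 2 := by nlinarith [norm_nonneg (chg Φ n c k q 0 u 0)]
    positivity
  have hr0 : 0 ≤ 1 - ‖T (yv Φ n c k 0 u) (yv Φ n c k p (T' + u))‖ := by
    have := (hS5 _ hyZ _ hyX).2
    linarith
  have hfin : g ^ e ≤ C * hd (chg Φ n c k q 0 u) 0 * (4 * σ / s) ^ e := by
    calc g ^ e ≤ (1 - ‖T Z X‖) ^ e := by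
          apply pow_le_pow_left₀ hg.le
          linarith
      _ ≤ C * hd (chg Φ n c k q 0 u) 0 * (1 - ‖T (yv Φ n c k 0 u) (yv Φ n c k p (T' + u))‖) ^ e := hPP
      _ ≤ C * hd (chg Φ n c k q 0 u) 0 * (4 * σ / s) ^ e := by gcongr
  have h7 : g * s / (4 * σ) = g / (4 * σ / s) := by field_simp
  rw [h7, div_pow, div_le_iff₀ (by positivity)]
  exact hfin

end ED
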